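import Pool.Agent.H49.PS.Final

/-!
# Finite generation of divisorial rings descends along pure ring maps
-/

namespace Pool.Agent.Results.MP_860ba9_ag.DivisorialPureDescent

open Pool.Agent.H49.PS

universe u v

/-- Let `R` be a noetherian normal domain.  Suppose that for every maximal ideal `𝔪` the local ring
`R_𝔪` is a pure subring of a noetherian normal domain `S` which is divisorially finite (all
multidivisorial rings of `S` are finitely generated), for example `Q`-factorial.  Then all
multidivisorial rings of `R` are finitely generated `R`-algebras. -/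
theorem result (R : Type u) [CommRing R] [IsDomain R] [IsNoetherianRing R] [IsIntegrallyClosed R]
    (h : ∀ (𝔪 : Ideal R) [𝔪.IsMaximal], ∃ (S : Type v) (_ : CommRing S) (_ : IsDomain S)
      (_ : IsNoetherianRing S) (_ : IsIntegrallyClosed S) (_ : Algebra (Localization.AtPrime 𝔪) S),
      IsPure (Localization.AtPrime 𝔪) S ∧ (DivisoriallyFinite S ∨ QFactorial S)) :
    DivisoriallyFinite R := by
  apply DivisoriallyFinite.of_local
  intro 𝔪 h𝔪
  obtain ⟨S, i1, i2, i3, i4, i5, hp, hS⟩ := h 𝔪
  exact ⟨S, i1, i2, i3, i4, i5, hp, hS.elim id DivisoriallyFinite.of_qfactorial⟩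

end Pool.Agent.Results.MP_860ba9_ag.DivisorialPureDescent
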